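import Pool.Graph.R_seed8.Results.MP_a0c03c_an.ExactCriterion

/-!
# Property (S): which Banach algebras are quotients by a finite-dimensional radical?

Let `A` be a Banach algebra with property (S) and `R` a finite-dimensional ideal, for example the
radical. The library shows that `A / R` need not have property (S) (`ExactCriterion`, which also says
for which `A` and `R` it has). Here we determine which Banach algebras `B` are of the form `A / R`
with `dim R = k`: exactly those for which there is a linear map `φ : B² → ℂ^k`, bounded for the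
projective norm (`‖φ (a b)‖ ≤ M ‖a‖ ‖b‖`), such that the projective norm on `B²` is at most
`C (‖x‖ + ‖φ x‖)`. For `k = 0` this is property (S). Those which are of the form `A / rad A` with
`dim rad A = k` are the semisimple ones among them. Every `k` is needed, even for commutative
separable algebras.
-/

set_option autoImplicit false

open Filter Topology
open Pool.Agent.Results.MP_a0c03c_an.FinDimRadical
open Pool.Agent.Results.MP_a0c03c_an.ExactCriterion

namespace Pool.Agent.Results.MP_a0c03c_an.WhichQuotients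

section Defs

variable (B : Type) [NonUnitalNormedRing B] [NormedSpace ℂ B]

/-- `B` has property (S) up to `k` dimensions: there is a linear map `φ : B² → ℂ^k`, bounded on
products of elements of bounded norm, such that every `x` in `B²` is a finite sum of products
`a i * b i` with `∑ ‖a i‖ ‖b i‖ ≤ C (‖x‖ + ‖φ x‖)`. -/
def PropertySUpTo (k : ℕ) : Prop :=
  ∃ (φ : squareSpan B →ₗ[ℂ] (Fin k → ℂ)) (M C : ℝ),
    (∀ a b : B, ‖φ ⟨a * b, mem_squareSpan_mul a b⟩‖ ≤ M * (‖a‖ * ‖b‖)) ∧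
    ∀ x : squareSpan B, ∃ (n : ℕ) (a b : Fin n → B),
      (x : B) = ∑ i, a i * b i ∧ ∑ i, ‖a i‖ * ‖b i‖ ≤ C * (‖(x : B)‖ + ‖φ x‖)

end Defs

section Ext

variable {B : Type} [NonUnitalNormedRing B] [NormedSpace ℂ B] {k : ℕ}

/-- The algebra `B × ℂ^k` with the product `(a, v) (b, w) = (a b, φ (a b))`. -/
def Ext (φ : squareSpan B →ₗ[ℂ] (Fin k → ℂ))
    (_ : ∀ a b : B, ‖φ ⟨a * b, mem_squareSpan_mul a b⟩‖ ≤ ‖a‖ * ‖b‖) : Type :=
  B × (Fin k → ℂ)

variable {φ : squareSpan B →ₗ[ℂ] (Fin k → ℂ)}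
  {h : ∀ a b : B, ‖φ ⟨a * b, mem_squareSpan_mul a b⟩‖ ≤ ‖a‖ * ‖b‖}

/-- The pair `(b, v)` as an element of `Ext φ h`. -/
def mk (φ : squareSpan B →ₗ[ℂ] (Fin k → ℂ))
    (h : ∀ a b : B, ‖φ ⟨a * b, mem_squareSpan_mul a b⟩‖ ≤ ‖a‖ * ‖b‖) (b : B) (v : Fin k → ℂ) :
    Ext φ h := (b, v)

noncomputable instance : NormedAddCommGroup (Ext φ h) :=
  inferInstanceAs (NormedAddCommGroup (B × (Fin k → ℂ)))

noncomputable instance : NormedSpace ℂ (Ext φ h) :=
  inferInstanceAs (NormedSpace ℂ (B × (Fin k → ℂ)))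

instance [CompleteSpace B] : CompleteSpace (Ext φ h) :=
  inferInstanceAs (CompleteSpace (B × (Fin k → ℂ)))

/-- the second component of a product -/
noncomputable def bet (φ : squareSpan B →ₗ[ℂ] (Fin k → ℂ)) (a b : B) : Fin k → ℂ :=
  φ ⟨a * b, mem_squareSpan_mul a b⟩

lemma bet_congr {a b c d : B} (h : a * b = c * d) : bet φ a b = bet φ c d := by
  unfold bet
  congr 1
  exact Subtype.ext h

lemma bet_add_right (a b c : B) : bet φ a (b + c) = bet φ a b + bet φ a c := by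
  unfold bet
  rw [← map_add]
  congr 1
  exact Subtype.ext (mul_add a b c)

lemma bet_add_left (a b c : B) : bet φ (a + b) c = bet φ a c + bet φ b c := by
  unfold bet
  rw [← map_add]
  congr 1
  exact Subtype.ext (add_mul a b c)

lemma bet_zero_right (a : B) : bet φ a 0 = 0 := by
  unfold bet
  have : (⟨a * 0, mem_squareSpan_mul a 0⟩ : squareSpan B) = 0 := Subtype.ext (mul_zero a)
  rw [this, map_zero]

lemma bet_zero_left (a : B) : bet φ 0 a = 0 := by
  unfold bet
  have : (⟨0 * a, mem_squareSpan_mul 0 a⟩ : squareSpan B) = 0 := Subtype.ext (zero_mul a)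
  rw [this, map_zero]

noncomputable instance : Mul (Ext φ h) := ⟨fun x y => (x.1 * y.1, bet φ x.1 y.1)⟩

lemma mul_def (x y : Ext φ h) : x * y = ((x.1 * y.1, bet φ x.1 y.1) : B × (Fin k → ℂ)) := rfl

lemma ext_norm (x : Ext φ h) : ‖x‖ = max ‖x.1‖ ‖x.2‖ := rfl

noncomputable instance : NonUnitalNormedRing (Ext φ h) :=
  { (inferInstance : NormedAddCommGroup (Ext φ h)), (inferInstance : Mul (Ext φ h)) with
    left_distrib := fun x y z => Prod.ext (mul_add _ _ _) (bet_add_right _ _ _)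
    right_distrib := fun x y z => Prod.ext (add_mul _ _ _) (bet_add_left _ _ _)
    zero_mul := fun x => Prod.ext (zero_mul _) (bet_zero_left _)
    mul_zero := fun x => Prod.ext (mul_zero _) (bet_zero_right _)
    mul_assoc := fun x y z => Prod.ext (mul_assoc _ _ _) (bet_congr (mul_assoc _ _ _))
    norm_mul_le := fun x y => by
      have h1 : ‖x.1‖ ≤ ‖x‖ := le_max_left _ _
      have h2 : ‖y.1‖ ≤ ‖y‖ := le_max_left _ _
      have h3 : ‖x.1‖ * ‖y.1‖ ≤ ‖x‖ * ‖y‖ := mul_le_mul h1 h2 (norm_nonneg _) (norm_nonneg _)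
      exact max_le ((norm_mul_le _ _).trans h3) ((h x.1 y.1).trans h3) }

lemma bet_smul_left [IsScalarTower ℂ B B] (c : ℂ) (a b : B) :
    bet φ (c • a) b = c • bet φ a b := by
  unfold bet
  rw [← map_smul]
  congr 1
  exact Subtype.ext (smul_mul_assoc c a b)

lemma bet_smul_right [SMulCommClass ℂ B B] (c : ℂ) (a b : B) :
    bet φ a (c • b) = c • bet φ a b := by
  unfold bet
  rw [← map_smul]
  congr 1
  exact Subtype.ext (mul_smul_comm c a b)

instance [IsScalarTower ℂ B B] : IsScalarTower ℂ (Ext φ h) (Ext φ h) :=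
  ⟨fun c _ _ => Prod.ext (smul_mul_assoc c _ _) (bet_smul_left c _ _)⟩

instance [SMulCommClass ℂ B B] : SMulCommClass ℂ (Ext φ h) (Ext φ h) :=
  ⟨fun c _ _ => Prod.ext (mul_smul_comm c _ _).symm (bet_smul_right c _ _).symm⟩

/-- The projection onto `B`. -/
noncomputable def proj : Ext φ h →ₙₐ[ℂ] B where
  toFun x := x.1
  map_smul' _ _ := rfl
  map_zero' := rfl
  map_add' _ _ := rfl
  map_mul' _ _ := rfl

/-- The kernel `0 × ℂ^k` of the projection. -/
noncomputable def Ker (φ : squareSpan B →ₗ[ℂ] (Fin k → ℂ))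
    (h : ∀ a b : B, ‖φ ⟨a * b, mem_squareSpan_mul a b⟩‖ ≤ ‖a‖ * ‖b‖) :
    Submodule ℂ (Ext φ h) :=
  LinearMap.range (LinearMap.inr ℂ B (Fin k → ℂ))

lemma mem_Ker (x : Ext φ h) : x ∈ Ker φ h ↔ x.1 = 0 := by
  constructor
  · rintro ⟨y, rfl⟩
    rfl
  · intro hx
    exact ⟨x.2, Prod.ext hx.symm rfl⟩

lemma isQuotient_proj : IsQuotient (proj (φ := φ) (h := h)) (Ker φ h) where
  surj b := ⟨(b, 0), rfl⟩
  ker x := (mem_Ker x).symm
  norm x := by
    refine le_antisymm ?_ ?_
    · rw [Metric.le_infDist ⟨0, Submodule.zero_mem _⟩]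
      intro y hy
      have h1 : y.1 = 0 := (mem_Ker y).1 hy
      rw [dist_eq_norm]
      have h2 : ‖(x - y).1‖ ≤ ‖x - y‖ := le_max_left _ _
      have h3 : (x - y).1 = x.1 := by
        change x.1 - y.1 = x.1
        rw [h1, sub_zero]
      rw [h3] at h2
      exact h2
    · have hy : mk φ h 0 x.2 ∈ (Ker φ h : Set (Ext φ h)) := ⟨x.2, rfl⟩
      refine (Metric.infDist_le_dist_of_mem hy).trans ?_
      rw [dist_eq_norm]
      refine max_le ?_ ?_
      · change ‖x.1 - 0‖ ≤ ‖x.1‖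
        rw [sub_zero]
      · change ‖x.2 - x.2‖ ≤ ‖x.1‖
        rw [sub_self, norm_zero]
        exact norm_nonneg _

lemma finrank_Ker : Module.finrank ℂ (Ker φ h) = k := by
  have := LinearMap.finrank_range_of_inj (f := LinearMap.inr ℂ B (Fin k → ℂ))
    LinearMap.inr_injective
  rw [Module.finrank_fin_fun] at this
  exact this

lemma finiteDimensional_Ker : FiniteDimensional ℂ (Ker φ h) :=
  inferInstanceAs (FiniteDimensional ℂ (LinearMap.range (LinearMap.inr ℂ B (Fin k → ℂ))))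

lemma mem_square {x : Ext φ h} (hx : x ∈ squareSpan (Ext φ h)) :
    ∃ hx' : x.1 ∈ squareSpan B, x.2 = φ ⟨x.1, hx'⟩ := by
  induction hx using Submodule.span_induction with
  | mem y hy =>
    obtain ⟨a, b, rfl⟩ := hy
    exact ⟨mem_squareSpan_mul _ _, rfl⟩
  | zero => exact ⟨Submodule.zero_mem _, (map_zero φ).symm⟩
  | add y z _ _ hy hz =>
    obtain ⟨h1, h2⟩ := hy
    obtain ⟨h3, h4⟩ := hz
    refine ⟨Submodule.add_mem _ h1 h3, ?_⟩
    change y.2 + z.2 = _
    rw [h2, h4, ← map_add]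
    rfl
  | smul c y _ hy =>
    obtain ⟨h1, h2⟩ := hy
    refine ⟨Submodule.smul_mem _ c h1, ?_⟩
    change c • y.2 = _
    rw [h2, ← map_smul]
    rfl

lemma sum_fst {ι : Type} (s : Finset ι) (f : ι → Ext φ h) : (∑ i ∈ s, f i).1 = ∑ i ∈ s, (f i).1 :=
  Prod.fst_sum (s := s) (f := (f : ι → B × (Fin k → ℂ)))

lemma ext_propertyS {C : ℝ} (hC : ∀ x : squareSpan B, ∃ (n : ℕ) (a b : Fin n → B),
      (x : B) = ∑ i, a i * b i ∧ ∑ i, ‖a i‖ * ‖b i‖ ≤ C * (‖(x : B)‖ + ‖φ x‖)) :
    PropertyS (Ext φ h) := by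
  refine ⟨2 * |C|, fun x hx => ?_⟩
  obtain ⟨hx1, hx2⟩ := mem_square hx
  obtain ⟨n, a, b, hab, hcost⟩ := hC ⟨x.1, hx1⟩
  let a' : Fin n → Ext φ h := fun i => mk φ h (a i) 0
  let b' : Fin n → Ext φ h := fun i => mk φ h (b i) 0
  have hn : ∀ c : B, ‖mk φ h c 0‖ = ‖c‖ := by
    intro c
    change max ‖c‖ ‖(0 : Fin k → ℂ)‖ = ‖c‖
    rw [norm_zero, max_eq_left (norm_nonneg _)]
  refine ⟨n, a', b', ?_, ?_⟩
  · have hmem : ∑ i, a' i * b' i ∈ squareSpan (Ext φ h) :=
      Submodule.sum_mem _ fun i _ => mem_squareSpan_mul _ _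
    obtain ⟨h1, h2⟩ := mem_square hmem
    have h3 : (∑ i, a' i * b' i).1 = x.1 := by
      rw [sum_fst]
      exact hab.symm
    refine Prod.ext h3.symm ?_
    rw [hx2, h2]
    congr 1
    exact Subtype.ext h3.symm
  · simp only [a', b', hn]
    refine hcost.trans ?_
    have h1 : ‖x.1‖ ≤ ‖x‖ := le_max_left _ _
    have h2 : ‖x.2‖ ≤ ‖x‖ := le_max_right _ _
    rw [hx2] at h2
    have h3 : (0 : ℝ) ≤ ‖x.1‖ + ‖φ ⟨x.1, hx1⟩‖ := by positivity
    have h4 : C * (‖x.1‖ + ‖φ ⟨x.1, hx1⟩‖) ≤ |C| * (‖x.1‖ + ‖φ ⟨x.1, hx1⟩‖) :=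
      mul_le_mul_of_nonneg_right (le_abs_self C) h3
    have h5 : |C| * (‖x.1‖ + ‖φ ⟨x.1, hx1⟩‖) ≤ |C| * (2 * ‖x‖) :=
      mul_le_mul_of_nonneg_left (by linarith) (abs_nonneg C)
    calc C * (‖x.1‖ + ‖φ ⟨x.1, hx1⟩‖) ≤ |C| * (2 * ‖x‖) := h4.trans h5
      _ = 2 * |C| * ‖x‖ := by ring

end Ext

section Back

variable {A B : Type} [NonUnitalNormedRing A] [NormedSpace ℂ A] [IsScalarTower ℂ A A]
  [SMulCommClass ℂ A A] [NonUnitalNormedRing B] [NormedSpace ℂ B] [IsScalarTower ℂ B B]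
  [SMulCommClass ℂ B B]

omit [IsScalarTower ℂ A A] [SMulCommClass ℂ A A] [IsScalarTower ℂ B B] [SMulCommClass ℂ B B] in
lemma exists_small_lift {q : A →ₙₐ[ℂ] B} {R : Submodule ℂ A} (hq : IsQuotient q R) (b : B) :
    ∃ a, q a = b ∧ ‖a‖ ≤ 2 * ‖b‖ := by
  by_cases hb : b = 0
  · exact ⟨0, by rw [hb, map_zero], by simp⟩
  · obtain ⟨a, rfl⟩ := hq.surj b
    have hpos : 0 < ‖q a‖ := norm_pos_iff.2 hb
    have h1 : Metric.infDist a (R : Set A) < 2 * ‖q a‖ := by
      rw [← hq.norm]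
      linarith
    obtain ⟨r, hr, hd⟩ := (Metric.infDist_lt_iff ⟨0, R.zero_mem⟩).1 h1
    refine ⟨a - r, ?_, ?_⟩
    · rw [map_sub, (hq.ker r).2 hr, sub_zero]
    · rw [dist_eq_norm] at hd
      exact hd.le

omit [IsScalarTower ℂ A A] [SMulCommClass ℂ A A] [IsScalarTower ℂ B B] [SMulCommClass ℂ B B] in
lemma norm_q_le {q : A →ₙₐ[ℂ] B} {R : Submodule ℂ A} (hq : IsQuotient q R) (a : A) :
    ‖q a‖ ≤ ‖a‖ := by
  rw [hq.norm]
  have h1 := Metric.infDist_le_dist_of_mem (x := a) (s := (R : Set A)) R.zero_mem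
  rwa [dist_zero_right] at h1

/-- The quotient of an algebra with property (S) by a `k`-dimensional ideal has property (S) up to
`k` dimensions. -/
theorem upTo_of_quotient {k : ℕ} {q : A →ₙₐ[ℂ] B} {R : Submodule ℂ A} [FiniteDimensional ℂ R]
    (hk : Module.finrank ℂ R = k) (hq : IsQuotient q R) (hA : PropertyS A) :
    PropertySUpTo B k := by
  classical
  obtain ⟨C, hC⟩ := hA
  -- the part of `R` in `A²`, and a complement
  let N : Submodule ℂ R := (squareSpan A).comap R.subtype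
  obtain ⟨N', hN'⟩ := N.exists_isCompl
  let ρ : R →ₗ[ℂ] R := N'.subtype ∘ₗ (N'.projectionOnto N hN'.symm)
  have hρN : ∀ r : R, ρ r = 0 → (r : A) ∈ squareSpan A := by
    intro r hr
    have h1 : N'.projectionOnto N hN'.symm r = 0 := Subtype.ext hr
    rw [Submodule.projectionOnto_apply_eq_zero_iff] at h1
    exact h1
  have hρN' : ∀ r : R, (r : A) ∈ squareSpan A → ρ r = 0 := by
    intro r hr
    have h1 : N'.projectionOnto N hN'.symm r = 0 := by
      rw [Submodule.projectionOnto_apply_eq_zero_iff]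
      exact hr
    change ((N'.projectionOnto N hN'.symm r : N') : R) = 0
    rw [h1]
    rfl
  have hρρ : ∀ r : R, ρ (ρ r) = ρ r := by
    intro r
    change ((N'.projectionOnto N hN'.symm
      ((N'.projectionOnto N hN'.symm r : N') : R) : N') : R) = _
    rw [Submodule.projectionOnto_apply_left]
    rfl
  -- a continuous projection onto `R`
  obtain ⟨P, hP⟩ := Submodule.ClosedComplemented.of_finiteDimensional R
  let T : A →L[ℂ] R := (LinearMap.toContinuousLinearMap ρ).comp P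
  have hT : ∀ a, T a = ρ (P a) := fun a => rfl
  have hTR : ∀ r : R, T (r : A) = ρ r := fun r => by rw [hT, hP]
  -- a linear section of `A² → B²`
  let L : squareSpan A →ₗ[ℂ] squareSpan B :=
    { toFun := fun y => ⟨q y, map_squareSpan q y.2⟩
      map_add' := fun y z => Subtype.ext (map_add q (y : A) z)
      map_smul' := fun c y => Subtype.ext (map_smul q c (y : A)) }
  have hL : Function.Surjective L := by
    rintro ⟨x, hx⟩
    obtain ⟨n, a, b, hab⟩ := exists_rep hx
    choose a' ha' using fun i => hq.surj (a i)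
    choose b' hb' using fun i => hq.surj (b i)
    refine ⟨⟨∑ i, a' i * b' i, Submodule.sum_mem _ fun i _ => mem_squareSpan_mul _ _⟩, ?_⟩
    apply Subtype.ext
    change q (∑ i, a' i * b' i) = x
    rw [map_sum, hab]
    exact Finset.sum_congr rfl fun i _ => by rw [map_mul, ha', hb']
  obtain ⟨g, hg⟩ := L.exists_rightInverse_of_surjective (LinearMap.range_eq_top.2 hL)
  have hgx : ∀ x : squareSpan B, q (g x : A) = x := by
    intro x
    have h1 : L (g x) = x := by
      rw [← LinearMap.comp_apply, hg]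
      rfl
    exact congrArg Subtype.val h1
  -- `T` on `A²` depends only on the image in `B`
  have hTeq : ∀ y z : A, y ∈ squareSpan A → z ∈ squareSpan A → q y = q z → T y = T z := by
    intro y z hy hz hyz
    have h1 : y - z ∈ R := (hq.ker _).1 (by rw [map_sub, hyz, sub_self])
    have h2 : T (y - z) = 0 := by
      have h3 := hTR ⟨y - z, h1⟩
      rw [hρN' ⟨y - z, h1⟩ (Submodule.sub_mem _ hy hz)] at h3
      exact h3
    rw [map_sub, sub_eq_zero] at h2
    exact h2
  let e : R ≃L[ℂ] (Fin k → ℂ) :=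
    ContinuousLinearEquiv.ofFinrankEq (by rw [hk, Module.finrank_fin_fun])
  let φ : squareSpan B →ₗ[ℂ] (Fin k → ℂ) :=
    (e : R →L[ℂ] (Fin k → ℂ)).toLinearMap ∘ₗ T.toLinearMap ∘ₗ (squareSpan A).subtype ∘ₗ g
  have hφ : ∀ x, φ x = e (T (g x : A)) := fun x => rfl
  have hφy : ∀ (y : A) (hy : y ∈ squareSpan A) (x : squareSpan B), q y = x → φ x = e (T y) := by
    intro y hy x hyx
    rw [hφ, hTeq (g x : A) y (g x).2 hy (by rw [hgx, hyx])]
  refine ⟨φ, ‖(e : R →L[ℂ] (Fin k → ℂ))‖ * ‖T‖ * 4,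
    |C| * (2 * (1 + ‖T‖) + ‖(e.symm : (Fin k → ℂ) →L[ℂ] R)‖), ?_, ?_⟩
  · intro a b
    obtain ⟨a', ha', hna⟩ := exists_small_lift hq a
    obtain ⟨b', hb', hnb⟩ := exists_small_lift hq b
    rw [hφy (a' * b') (mem_squareSpan_mul _ _) _ (by rw [map_mul, ha', hb'])]
    have h1 : ‖e (T (a' * b'))‖ ≤ ‖(e : R →L[ℂ] (Fin k → ℂ))‖ * ‖T (a' * b')‖ :=
      (e : R →L[ℂ] (Fin k → ℂ)).le_opNorm _
    have h2 : ‖T (a' * b')‖ ≤ ‖T‖ * ‖a' * b'‖ := T.le_opNorm _
    have h3 : ‖a' * b'‖ ≤ (2 * ‖a‖) * (2 * ‖b‖) :=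
      (norm_mul_le _ _).trans (mul_le_mul hna hnb (norm_nonneg _) (by positivity))
    calc ‖e (T (a' * b'))‖ ≤ ‖(e : R →L[ℂ] (Fin k → ℂ))‖ * (‖T‖ * ((2 * ‖a‖) * (2 * ‖b‖))) :=
          h1.trans (mul_le_mul_of_nonneg_left
            (h2.trans (mul_le_mul_of_nonneg_left h3 T.opNorm_nonneg))
            (ContinuousLinearMap.opNorm_nonneg _))
      _ = ‖(e : R →L[ℂ] (Fin k → ℂ))‖ * ‖T‖ * 4 * (‖a‖ * ‖b‖) := by ring
  · intro x
    obtain ⟨a₀, ha₀, hn₀⟩ := exists_small_lift hq (x : B)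
    have hr : (g x : A) - a₀ ∈ R := (hq.ker _).1 (by rw [map_sub, hgx, ha₀, sub_self])
    set r : R := ⟨(g x : A) - a₀, hr⟩ with hrdef
    have hr1 : ((r - ρ r : R) : A) ∈ squareSpan A := hρN _ (by rw [map_sub, hρρ, sub_self])
    set y : A := (g x : A) - ((r - ρ r : R) : A) with hy
    have hymem : y ∈ squareSpan A := Submodule.sub_mem _ (g x).2 hr1
    have hyeq : y = a₀ + ((ρ r : R) : A) := by
      rw [hy, Submodule.coe_sub, hrdef]
      simp only
      abel
    have hqy : q y = x := by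
      rw [hyeq, map_add, ha₀, (hq.ker _).2 (ρ r).2, add_zero]
    have hTy : T y = T a₀ + ρ r := by
      rw [hyeq, map_add, hTR, hρρ]
    have hφx : φ x = e (T y) := hφy y hymem x hqy
    have h1 : ‖T y‖ ≤ ‖(e.symm : (Fin k → ℂ) →L[ℂ] R)‖ * ‖φ x‖ := by
      have h2 : T y = e.symm (φ x) := by rw [hφx, ContinuousLinearEquiv.symm_apply_apply]
      rw [h2]
      exact (e.symm : (Fin k → ℂ) →L[ℂ] R).le_opNorm _
    have h3 : ‖ρ r‖ ≤ ‖T y‖ + ‖T‖ * ‖a₀‖ := by
      have h4 : ρ r = T y - T a₀ := by rw [hTy, add_sub_cancel_left]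
      rw [h4]
      exact (norm_sub_le _ _).trans (add_le_add le_rfl (T.le_opNorm _))
    have h5 : ‖y‖ ≤ (2 * (1 + ‖T‖) + ‖(e.symm : (Fin k → ℂ) →L[ℂ] R)‖) * (‖(x : B)‖ + ‖φ x‖) := by
      have h6 : ‖y‖ ≤ ‖a₀‖ + ‖ρ r‖ := by
        rw [hyeq]
        exact norm_add_le _ _
      have h7 : 0 ≤ ‖T‖ := T.opNorm_nonneg
      have h8 : 0 ≤ ‖(e.symm : (Fin k → ℂ) →L[ℂ] R)‖ := ContinuousLinearMap.opNorm_nonneg _
      have h9 : 0 ≤ ‖(x : B)‖ := norm_nonneg _
      have h10 : 0 ≤ ‖φ x‖ := norm_nonneg _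
      have h11 : ‖T‖ * ‖a₀‖ ≤ ‖T‖ * (2 * ‖(x : B)‖) := mul_le_mul_of_nonneg_left hn₀ h7
      have h12 := mul_nonneg h7 h10
      have h13 := mul_nonneg h8 h9
      nlinarith
    obtain ⟨n, a, b, hab, hcost⟩ := hC y hymem
    refine ⟨n, fun i => q (a i), fun i => q (b i), ?_, ?_⟩
    · rw [← hqy, hab, map_sum]
      exact Finset.sum_congr rfl fun i _ => map_mul q _ _
    · calc ∑ i, ‖q (a i)‖ * ‖q (b i)‖ ≤ ∑ i, ‖a i‖ * ‖b i‖ :=
            Finset.sum_le_sum fun i _ => mul_le_mul (norm_q_le hq _) (norm_q_le hq _)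
              (norm_nonneg _) (norm_nonneg _)
        _ ≤ C * ‖y‖ := hcost
        _ ≤ |C| * ‖y‖ := mul_le_mul_of_nonneg_right (le_abs_self C) (norm_nonneg _)
        _ ≤ |C| * ((2 * (1 + ‖T‖) + ‖(e.symm : (Fin k → ℂ) →L[ℂ] R)‖) *
            (‖(x : B)‖ + ‖φ x‖)) := mul_le_mul_of_nonneg_left h5 (abs_nonneg C)
        _ = _ := by ring

/-- The extension of a homomorphism to the unitizations. -/
noncomputable def unit (q : A →ₙₐ[ℂ] B) : Unitization ℂ A →+* Unitization ℂ B :=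
  (Unitization.lift ((Unitization.inrNonUnitalAlgHom ℂ B).comp q) :
    Unitization ℂ A →ₐ[ℂ] Unitization ℂ B).toRingHom

lemma unit_apply (q : A →ₙₐ[ℂ] B) (u : Unitization ℂ A) :
    unit q u = Unitization.inl u.fst + Unitization.inr (q u.snd) := rfl

lemma unit_inr (q : A →ₙₐ[ℂ] B) (a : A) : unit q (Unitization.inr a) = Unitization.inr (q a) := by
  rw [unit_apply]
  ext <;> simp

lemma unit_surjective {q : A →ₙₐ[ℂ] B} (hq : Function.Surjective q) :
    Function.Surjective (unit q) := by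
  intro u
  obtain ⟨a, ha⟩ := hq u.snd
  refine ⟨Unitization.inl u.fst + Unitization.inr a, ?_⟩
  rw [unit_apply]
  ext <;> simp [ha]

/-- Surjective homomorphisms map the radical into the radical. -/
lemma map_radical {q : A →ₙₐ[ℂ] B} (hq : Function.Surjective q) {a : A} (ha : a ∈ radical A) :
    q a ∈ radical B := by
  have : RingHomSurjective (unit q) := ⟨unit_surjective hq⟩
  have h1 : Ring.jacobson (Unitization ℂ A) ≤
      Ideal.comap (unit q) (Ring.jacobson (Unitization ℂ B)) := Ring.le_comap_jacobson (unit q)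
  have h2 := h1 (show (Unitization.inr a : Unitization ℂ A) ∈ Ring.jacobson _ from ha)
  rw [Ideal.mem_comap, unit_inr] at h2
  exact h2

/-- The quotient by the radical is semisimple. -/
lemma radical_eq_bot {q : A →ₙₐ[ℂ] B} (hq : IsQuotient q (radical A)) : radical B = ⊥ := by
  have : RingHomSurjective (unit q) := ⟨unit_surjective hq.surj⟩
  have hker : RingHom.ker (unit q) ≤ Ring.jacobson (Unitization ℂ A) := by
    intro u hu
    rw [RingHom.mem_ker, unit_apply] at hu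
    have h1 : u.fst = 0 := by
      have := congrArg (fun w : Unitization ℂ B => w.fst) hu
      simpa using this
    have h2 : q u.snd = 0 := by
      have := congrArg (fun w : Unitization ℂ B => w.snd) hu
      simpa using this
    have h3 : (Unitization.inr u.snd : Unitization ℂ A) ∈ Ring.jacobson (Unitization ℂ A) :=
      (hq.ker _).1 h2
    have h4 : u = Unitization.inr u.snd := by
      ext
      · simp [h1]
      · simp
    rw [h4]
    exact h3
  rw [eq_bot_iff]
  intro b hb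
  obtain ⟨a, rfl⟩ := hq.surj b
  rw [Submodule.mem_bot, hq.ker]
  have h1 : (Unitization.inr (q a) : Unitization ℂ B) ∈ Ring.jacobson (Unitization ℂ B) := hb
  rw [← unit_inr, ← Ring.map_jacobson_of_ker_le hker] at h1
  obtain ⟨v, hv, hvu⟩ := h1
  have h2 : (Unitization.inr a : Unitization ℂ A) - v ∈ RingHom.ker (unit q) := by
    rw [RingHom.mem_ker, map_sub, sub_eq_zero]
    exact hvu.symm
  have h3 := Ideal.add_mem _ (hker h2) hv
  rw [sub_add_cancel] at h3
  exact h3

/-- For the extension `Ext φ h` of a semisimple algebra the kernel is the radical. -/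
lemma radical_ext {k : ℕ} (hB : radical B = ⊥) {φ : squareSpan B →ₗ[ℂ] (Fin k → ℂ)}
    (h : ∀ a b : B, ‖φ ⟨a * b, mem_squareSpan_mul a b⟩‖ ≤ ‖a‖ * ‖b‖) :
    radical (Ext φ h) = Ker φ h := by
  ext x
  rw [mem_Ker]
  constructor
  · intro hx
    have h1 := map_radical (q := proj (φ := φ) (h := h)) isQuotient_proj.surj hx
    rw [hB, Submodule.mem_bot] at h1
    exact h1
  · intro hx
    refine Pool.Agent.Y147.FR.mem_of_ann fun y => ?_
    rw [mul_def, hx, mul_zero, bet_zero_right]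
    rfl

omit [IsScalarTower ℂ B B] [SMulCommClass ℂ B B] in
/-- Normalisation of `φ`. -/
lemma PropertySUpTo.normalise {k : ℕ} (hB : PropertySUpTo B k) :
    ∃ (φ : squareSpan B →ₗ[ℂ] (Fin k → ℂ)) (C : ℝ),
      (∀ a b : B, ‖φ ⟨a * b, mem_squareSpan_mul a b⟩‖ ≤ ‖a‖ * ‖b‖) ∧
      ∀ x : squareSpan B, ∃ (n : ℕ) (a b : Fin n → B),
        (x : B) = ∑ i, a i * b i ∧ ∑ i, ‖a i‖ * ‖b i‖ ≤ C * (‖(x : B)‖ + ‖φ x‖) := by
  obtain ⟨φ, M, C, h1, h2⟩ := hB
  set m : ℝ := max M 1 with hm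
  have hm1 : 1 ≤ m := le_max_right _ _
  have hm0 : 0 < m := by linarith
  have hnorm : ∀ x, ‖(((m⁻¹ : ℝ) : ℂ) • φ) x‖ = m⁻¹ * ‖φ x‖ := by
    intro x
    rw [LinearMap.smul_apply, norm_smul, Complex.norm_real, Real.norm_eq_abs,
      abs_of_pos (inv_pos.2 hm0)]
  refine ⟨((m⁻¹ : ℝ) : ℂ) • φ, |C| * m, fun a b => ?_, fun x => ?_⟩
  · rw [hnorm, inv_mul_le_iff₀ hm0]
    refine (h1 a b).trans (mul_le_mul_of_nonneg_right (le_max_left _ _) (by positivity))
  · obtain ⟨n, a, b, hab, hc⟩ := h2 x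
    refine ⟨n, a, b, hab, hc.trans ?_⟩
    rw [hnorm]
    have h3 : 0 ≤ ‖(x : B)‖ := norm_nonneg _
    have h4 : 0 ≤ ‖φ x‖ := norm_nonneg _
    have h5 : C * (‖(x : B)‖ + ‖φ x‖) ≤ |C| * (‖(x : B)‖ + ‖φ x‖) :=
      mul_le_mul_of_nonneg_right (le_abs_self C) (by positivity)
    have h6 : ‖(x : B)‖ + ‖φ x‖ ≤ m * (‖(x : B)‖ + m⁻¹ * ‖φ x‖) := by
      rw [mul_add, ← mul_assoc, mul_inv_cancel₀ hm0.ne', one_mul]
      nlinarith
    calc C * (‖(x : B)‖ + ‖φ x‖) ≤ |C| * (‖(x : B)‖ + ‖φ x‖) := h5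
      _ ≤ |C| * (m * (‖(x : B)‖ + m⁻¹ * ‖φ x‖)) := mul_le_mul_of_nonneg_left h6 (abs_nonneg C)
      _ = _ := by ring

end Back

/-- `B` is the quotient (with the quotient norm) of a Banach algebra `A` with property (S) by an
ideal `R` of dimension `k`. -/
def IsQuotientOfS (B : Type) [NonUnitalNormedRing B] [NormedSpace ℂ B] (k : ℕ) : Prop :=
  ∃ (A : Type) (_ : NonUnitalNormedRing A) (_ : NormedSpace ℂ A) (_ : IsScalarTower ℂ A A)
    (_ : SMulCommClass ℂ A A) (_ : CompleteSpace A) (q : A →ₙₐ[ℂ] B) (R : Submodule ℂ A),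
    FiniteDimensional ℂ R ∧ Module.finrank ℂ R = k ∧ IsQuotient q R ∧ PropertyS A

/-- `B` is the quotient (with the quotient norm) of a Banach algebra `A` with property (S) by its
radical, which has dimension `k`. -/
def IsRadicalQuotientOfS (B : Type) [NonUnitalNormedRing B] [NormedSpace ℂ B] (k : ℕ) : Prop :=
  ∃ (A : Type) (_ : NonUnitalNormedRing A) (_ : NormedSpace ℂ A) (_ : IsScalarTower ℂ A A)
    (_ : SMulCommClass ℂ A A) (_ : CompleteSpace A) (q : A →ₙₐ[ℂ] B),
    FiniteDimensional ℂ (radical A) ∧ Module.finrank ℂ (radical A) = k ∧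
    IsQuotient q (radical A) ∧ PropertyS A

theorem isQuotientOfS_iff (B : Type) [NonUnitalNormedRing B] [NormedSpace ℂ B]
    [IsScalarTower ℂ B B] [SMulCommClass ℂ B B] [CompleteSpace B] (k : ℕ) :
    IsQuotientOfS B k ↔ PropertySUpTo B k := by
  constructor
  · rintro ⟨A, _, _, _, _, _, q, R, hR, hk, hq, hA⟩
    exact upTo_of_quotient hk hq hA
  · intro h
    obtain ⟨φ, C, h1, h2⟩ := h.normalise
    exact ⟨Ext φ h1, inferInstance, inferInstance, inferInstance, inferInstance, inferInstance,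
      proj, Ker φ h1, finiteDimensional_Ker, finrank_Ker, isQuotient_proj, ext_propertyS h2⟩

theorem isRadicalQuotientOfS_iff (B : Type) [NonUnitalNormedRing B] [NormedSpace ℂ B]
    [IsScalarTower ℂ B B] [SMulCommClass ℂ B B] [CompleteSpace B] (k : ℕ) :
    IsRadicalQuotientOfS B k ↔ radical B = ⊥ ∧ PropertySUpTo B k := by
  constructor
  · rintro ⟨A, _, _, _, _, _, q, hR, hk, hq, hA⟩
    exact ⟨radical_eq_bot hq, upTo_of_quotient hk hq hA⟩
  · rintro ⟨hB, h⟩
    obtain ⟨φ, C, h1, h2⟩ := h.normalise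
    refine ⟨Ext φ h1, inferInstance, inferInstance, inferInstance, inferInstance, inferInstance,
      proj, ?_⟩
    rw [radical_ext hB h1]
    exact ⟨finiteDimensional_Ker, finrank_Ker, isQuotient_proj, ext_propertyS h2⟩

section Strict

variable {B : Type} [NonUnitalNormedRing B] [NormedSpace ℂ B] [IsScalarTower ℂ B B]
  [SMulCommClass ℂ B B]

/-- the evaluation at `i` -/
noncomputable def evl (k : ℕ) (i : Fin k) : (Fin k → B) →ₙₐ[ℂ] B where
  toFun x := x i
  map_smul' _ _ := rfl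
  map_zero' := rfl
  map_add' _ _ := rfl
  map_mul' _ _ := rfl

lemma coord_mem {k : ℕ} (i : Fin k) {x : Fin k → B} (hx : x ∈ squareSpan (Fin k → B)) :
    x i ∈ squareSpan B := map_squareSpan (evl k i) hx

omit [IsScalarTower ℂ B B] [SMulCommClass ℂ B B] in
/-- a bound on products gives a bound on sums of products -/
lemma norm_le_cost {m : ℕ} {φ : squareSpan B →ₗ[ℂ] (Fin m → ℂ)} {M : ℝ}
    (h : ∀ a b : B, ‖φ ⟨a * b, mem_squareSpan_mul a b⟩‖ ≤ M * (‖a‖ * ‖b‖)) {x : squareSpan B}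
    {n : ℕ} {a b : Fin n → B} (hx : (x : B) = ∑ i, a i * b i) :
    ‖φ x‖ ≤ |M| * ∑ i, ‖a i‖ * ‖b i‖ := by
  have h1 : x = ∑ i, (⟨a i * b i, mem_squareSpan_mul _ _⟩ : squareSpan B) := by
    apply Subtype.ext
    rw [hx, AddSubmonoidClass.coe_finsetSum]
  rw [h1, map_sum, Finset.mul_sum]
  refine norm_sum_le_of_le _ fun i _ => (h _ _).trans ?_
  exact mul_le_mul_of_nonneg_right (le_abs_self M) (by positivity)

lemma upTo_pi (hB : PropertySUpTo B 1) (k : ℕ) : PropertySUpTo (Fin k → B) k := by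
  obtain ⟨φ, M, C, h1, h2⟩ := hB
  let ψ : squareSpan (Fin k → B) →ₗ[ℂ] (Fin k → ℂ) :=
    { toFun := fun x i => φ ⟨(x : Fin k → B) i, coord_mem i x.2⟩ 0
      map_add' := fun x y => by
        funext i
        have : (⟨((x + y : squareSpan (Fin k → B)) : Fin k → B) i, coord_mem i (x + y).2⟩ :
            squareSpan B) = ⟨(x : Fin k → B) i, coord_mem i x.2⟩ +
              ⟨(y : Fin k → B) i, coord_mem i y.2⟩ := rfl
        change φ _ 0 = _
        rw [this, map_add]
        rfl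
      map_smul' := fun c x => by
        funext i
        have : (⟨((c • x : squareSpan (Fin k → B)) : Fin k → B) i, coord_mem i (c • x).2⟩ :
            squareSpan B) = c • ⟨(x : Fin k → B) i, coord_mem i x.2⟩ := rfl
        change φ _ 0 = _
        rw [this, map_smul]
        rfl }
  have hψ : ∀ x i, ψ x i = φ ⟨(x : Fin k → B) i, coord_mem i x.2⟩ 0 := fun _ _ => rfl
  refine ⟨ψ, |M|, k * |C|, fun a b => ?_, fun x => ?_⟩
  · rw [pi_norm_le_iff_of_nonneg (by positivity)]
    intro i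
    rw [hψ]
    refine (norm_le_pi_norm _ _).trans ((h1 (a i) (b i)).trans ?_)
    have h3 := norm_le_pi_norm a i
    have h4 := norm_le_pi_norm b i
    exact mul_le_mul (le_abs_self M) (mul_le_mul h3 h4 (norm_nonneg _) (norm_nonneg _))
      (by positivity) (abs_nonneg M)
  · have hrep : Rep (x : Fin k → B) (∑ i : Fin k, |C| * (‖(x : Fin k → B)‖ + ‖ψ x‖)) := by
      have h3 : (x : Fin k → B) = ∑ i, Pi.single i ((x : Fin k → B) i) :=
        (Finset.univ_sum_single _).symm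
      rw [h3]
      apply Rep.sum
      intro i _
      rw [← h3]
      obtain ⟨n, a, b, hab, hc⟩ := h2 ⟨(x : Fin k → B) i, coord_mem i x.2⟩
      refine ⟨n, fun j => Pi.single i (a j), fun j => Pi.single i (b j), ?_, ?_⟩
      · simp only at hab
        rw [hab]
        simp only [← Pi.single_mul]
        exact (map_sum (AddMonoidHom.single (fun _ : Fin k => B) i) _ _)
      · simp only [Pi.norm_single]
        refine hc.trans ?_
        have h4 : ‖(x : Fin k → B) i‖ ≤ ‖(x : Fin k → B)‖ := norm_le_pi_norm _ _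
        have h5 : ‖φ ⟨(x : Fin k → B) i, coord_mem i x.2⟩‖ ≤ ‖ψ x‖ := by
          rw [pi_norm_le_iff_of_nonneg (norm_nonneg _)]
          intro j
          rw [Subsingleton.elim j 0, ← hψ]
          exact norm_le_pi_norm _ _
        refine (mul_le_mul_of_nonneg_right (le_abs_self C) (by positivity)).trans ?_
        exact mul_le_mul_of_nonneg_left (add_le_add h4 h5) (abs_nonneg C)
    obtain ⟨n, a, b, h3, h4⟩ := hrep
    refine ⟨n, a, b, h3, h4.trans (le_of_eq ?_)⟩
    rw [Finset.sum_const, Finset.card_univ, Fintype.card_fin, nsmul_eq_mul, mul_assoc]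

omit [IsScalarTower ℂ B B] [SMulCommClass ℂ B B] in
lemma not_upTo_pi (hB : PropertySUpTo B 1) (hS : ¬ PropertyS B) {k m : ℕ} (hmk : m < k) :
    ¬ PropertySUpTo (Fin k → B) m := by
  obtain ⟨φ, M, C, h1, h2⟩ := hB
  rintro ⟨ψ, M', C', h1', h2'⟩
  -- small elements with `|φ| = 1`
  have hx : ∀ n : ℕ, ∃ x : squareSpan B, ‖(x : B)‖ ≤ 1 / (n + 1) ∧ ‖φ x‖ = 1 := by
    intro n
    by_contra hcon
    push Not at hcon
    apply hS
    refine ⟨|C| * (1 + (n + 1)), fun x hx => ?_⟩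
    obtain ⟨l, a, b, hab, hc⟩ := h2 ⟨x, hx⟩
    refine ⟨l, a, b, hab, hc.trans ?_⟩
    have key : ‖φ ⟨x, hx⟩‖ ≤ (n + 1) * ‖x‖ := by
      by_cases h0 : ‖φ ⟨x, hx⟩‖ = 0
      · rw [h0]; positivity
      · have hpos : 0 < ‖φ ⟨x, hx⟩‖ := lt_of_le_of_ne (norm_nonneg _) (Ne.symm h0)
        by_contra hlt
        push Not at hlt
        refine hcon (((‖φ ⟨x, hx⟩‖⁻¹ : ℝ) : ℂ) • ⟨x, hx⟩) ?_ ?_
        · rw [Submodule.coe_smul, norm_smul, Complex.norm_real, Real.norm_eq_abs,
            abs_of_pos (inv_pos.2 hpos), inv_mul_le_iff₀ hpos, mul_one_div,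
            le_div_iff₀ (by positivity)]
          simp only
          linarith
        · rw [map_smul, norm_smul, Complex.norm_real, Real.norm_eq_abs,
            abs_of_pos (inv_pos.2 hpos), inv_mul_cancel₀ h0]
    have h3 : (0 : ℝ) ≤ ‖x‖ := norm_nonneg _
    have h4 : (0 : ℝ) ≤ ‖φ ⟨x, hx⟩‖ := norm_nonneg _
    calc C * (‖x‖ + ‖φ ⟨x, hx⟩‖) ≤ |C| * (‖x‖ + ‖φ ⟨x, hx⟩‖) :=
          mul_le_mul_of_nonneg_right (le_abs_self C) (by positivity)
      _ ≤ |C| * (‖x‖ + (n + 1) * ‖x‖) :=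
          mul_le_mul_of_nonneg_left (by linarith) (abs_nonneg C)
      _ = |C| * (1 + (n + 1)) * ‖x‖ := by ring
  choose x hxn hxφ using hx
  choose l a b hab hc using fun n => h2 (x n)
  have hcost : ∀ n, ∑ j, ‖a n j‖ * ‖b n j‖ ≤ |C| * 2 := by
    intro n
    refine (hc n).trans ?_
    have h3 : ‖(x n : B)‖ ≤ 1 := (hxn n).trans (by
      rw [div_le_one (by positivity)]
      have : (0 : ℝ) ≤ n := Nat.cast_nonneg n
      linarith)
    calc C * (‖(x n : B)‖ + ‖φ (x n)‖) ≤ |C| * (‖(x n : B)‖ + ‖φ (x n)‖) :=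
          mul_le_mul_of_nonneg_right (le_abs_self C) (by positivity)
      _ ≤ |C| * 2 := mul_le_mul_of_nonneg_left (by rw [hxφ]; linarith) (abs_nonneg C)
  -- the elements `x n` in the coordinate `i`
  have hrepi : ∀ n (i : Fin k), (Pi.single i (x n : B) : Fin k → B) =
      ∑ j, (Pi.single i (a n j) : Fin k → B) * Pi.single i (b n j) := by
    intro n i
    conv_lhs => rw [hab n]
    simp only [← Pi.single_mul]
    exact (map_sum (AddMonoidHom.single (fun _ : Fin k => B) i) _ _)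
  have hmem : ∀ n (i : Fin k), (Pi.single i (x n : B) : Fin k → B) ∈ squareSpan (Fin k → B) := by
    intro n i
    rw [hrepi]
    exact Submodule.sum_mem _ fun j _ => mem_squareSpan_mul _ _
  let v : ℕ → Fin k → Fin m → ℂ := fun n i => ψ ⟨Pi.single i (x n : B), hmem n i⟩
  have hv : ∀ n, ‖v n‖ ≤ |M'| * (|C| * 2) := by
    intro n
    rw [pi_norm_le_iff_of_nonneg (by positivity)]
    intro i
    refine (norm_le_cost h1' (hrepi n i)).trans ?_
    refine mul_le_mul_of_nonneg_left ?_ (abs_nonneg M')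
    simp only [Pi.norm_single]
    exact hcost n
  obtain ⟨w, -, f, hf, hw⟩ := (isCompact_closedBall (0 : Fin k → Fin m → ℂ)
    (|M'| * (|C| * 2))).tendsto_subseq (x := v) (fun n => by
      rw [mem_closedBall_zero_iff]; exact hv n)
  -- a linear relation
  obtain ⟨c, hc0, i₀, hi₀⟩ : ∃ c : Fin k → ℂ, ∑ i, c i • w i = 0 ∧ ∃ i, c i ≠ 0 := by
    have hdep : ¬ LinearIndependent ℂ w := by
      intro hli
      have := hli.fintype_card_le_finrank
      rw [Fintype.card_fin, Module.finrank_fin_fun] at this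
      omega
    exact Fintype.not_linearIndependent_iff.1 hdep
  let y : ℕ → squareSpan (Fin k → B) := fun n => ∑ i, c i • ⟨Pi.single i (x n : B), hmem n i⟩
  have hyi : ∀ n i, (y n : Fin k → B) i = c i • (x n : B) := by
    intro n i
    simp only [y, AddSubmonoidClass.coe_finsetSum, Submodule.coe_smul, Finset.sum_apply,
      Pi.smul_apply]
    rw [Finset.sum_eq_single i]
    · simp
    · intro j _ hj
      rw [Pi.single_eq_of_ne (Ne.symm hj), smul_zero]
    · simp
  have hyn : Tendsto (fun n => ‖(y (f n) : Fin k → B)‖) atTop (𝓝 0) := by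
    have h3 : Tendsto (fun n : ℕ => ‖c‖ * (1 / ((f n : ℝ) + 1))) atTop (𝓝 0) := by
      have := (tendsto_one_div_add_atTop_nhds_zero_nat (𝕜 := ℝ)).comp hf.tendsto_atTop
      simpa using this.const_mul ‖c‖
    refine squeeze_zero (fun n => norm_nonneg _) (fun n => ?_) h3
    rw [pi_norm_le_iff_of_nonneg (by positivity)]
    intro i
    rw [hyi, norm_smul]
    exact mul_le_mul (norm_le_pi_norm c i) (hxn _) (norm_nonneg _) (norm_nonneg _)
  have hψy : Tendsto (fun n => ‖ψ (y (f n))‖) atTop (𝓝 0) := by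
    have h3 : Tendsto (fun n => ∑ i, c i • v (f n) i) atTop (𝓝 (∑ i, c i • w i)) :=
      tendsto_finsetSum _ fun i _ => ((tendsto_pi_nhds.1 hw i).const_smul (c i))
    rw [hc0] at h3
    have h4 : ∀ n, ψ (y (f n)) = ∑ i, c i • v (f n) i := by
      intro n
      simp only [y, map_sum, map_smul]
      rfl
    simp only [h4]
    simpa using h3.norm
  have hlim : Tendsto (fun n => |M| * (|C'| * (‖(y (f n) : Fin k → B)‖ + ‖ψ (y (f n))‖))) atTop
      (𝓝 0) := by
    simpa using ((hyn.add hψy).const_mul |C'|).const_mul |M|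
  have hlow : ∀ n, ‖c i₀‖ ≤ |M| * (|C'| * (‖(y (f n) : Fin k → B)‖ + ‖ψ (y (f n))‖)) := by
    intro n
    obtain ⟨l', a', b', hab', hc'⟩ := h2' (y (f n))
    have h3 : ((c i₀ • x (f n) : squareSpan B) : B) = ∑ j, a' j i₀ * b' j i₀ := by
      rw [Submodule.coe_smul, ← hyi, hab', Finset.sum_apply]
      rfl
    have h4 := norm_le_cost h1 h3
    rw [map_smul, norm_smul, hxφ, mul_one] at h4
    refine h4.trans (mul_le_mul_of_nonneg_left ?_ (abs_nonneg M))
    calc ∑ j, ‖a' j i₀‖ * ‖b' j i₀‖ ≤ ∑ j, ‖a' j‖ * ‖b' j‖ :=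
          Finset.sum_le_sum fun j _ => mul_le_mul (norm_le_pi_norm _ _) (norm_le_pi_norm _ _)
            (norm_nonneg _) (norm_nonneg _)
      _ ≤ C' * (‖(y (f n) : Fin k → B)‖ + ‖ψ (y (f n))‖) := hc'
      _ ≤ |C'| * (‖(y (f n) : Fin k → B)‖ + ‖ψ (y (f n))‖) :=
          mul_le_mul_of_nonneg_right (le_abs_self C') (by positivity)
  have hle : ‖c i₀‖ ≤ 0 := ge_of_tendsto' hlim hlow
  exact hi₀ (norm_le_zero_iff.1 hle)

end Strict

/-- The dimension of the radical cannot be reduced. -/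
theorem strict (k : ℕ) :
    ∃ (B : Type) (_ : NonUnitalNormedRing B) (_ : NormedSpace ℂ B) (_ : IsScalarTower ℂ B B)
      (_ : SMulCommClass ℂ B B) (_ : CompleteSpace B),
      (∀ a b : B, a * b = b * a) ∧ TopologicalSpace.SeparableSpace B ∧
      IsRadicalQuotientOfS B k ∧ ∀ m < k, ¬ IsQuotientOfS B m := by
  obtain ⟨A, _, _, _, _, _, B, _, _, _, _, _, q, hcomm, hsep, hfin, -, hq, hA, hB⟩ :=
    ExactCriterion.result.2 1 le_rfl
  have : FiniteDimensional ℂ (radical A) := Module.finite_of_finrank_pos (by omega)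
  have h1 : PropertySUpTo B 1 := upTo_of_quotient hfin hq hA
  have hcB : ∀ a b : B, a * b = b * a := by
    intro a b
    obtain ⟨a, rfl⟩ := hq.surj a
    obtain ⟨b, rfl⟩ := hq.surj b
    rw [← map_mul, hcomm, map_mul]
  have hsB : TopologicalSpace.SeparableSpace B := by
    have hcont : Continuous q := by
      refine continuous_iff_continuousAt.2 fun a => ?_
      rw [ContinuousAt, tendsto_iff_norm_sub_tendsto_zero]
      refine squeeze_zero (fun _ => norm_nonneg _) (fun y => ?_)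
        (tendsto_iff_norm_sub_tendsto_zero.1 (continuousAt_id (x := a)))
      rw [← map_sub]
      exact norm_q_le hq _
    exact hq.surj.denseRange.separableSpace hcont
  refine ⟨Fin k → B, inferInstance, inferInstance, inferInstance, inferInstance, inferInstance,
    fun a b => funext fun i => hcB _ _, inferInstance, ?_, fun m hm h => ?_⟩
  · rw [isRadicalQuotientOfS_iff]
    refine ⟨?_, upTo_pi h1 k⟩
    rw [eq_bot_iff]
    intro x hx
    rw [Submodule.mem_bot]
    funext i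
    have h2 := map_radical (q := evl (B := B) k i) (fun b => ⟨fun _ => b, rfl⟩) hx
    rw [radical_eq_bot hq, Submodule.mem_bot] at h2
    exact h2
  · exact not_upTo_pi h1 hB hm ((isQuotientOfS_iff _ m).1 h)

/-- **Main theorem.** (1) For every `k ≥ 1` there are a commutative separable Banach algebra `A` with
property (S), whose radical has dimension `k` and annihilates `A`, and its quotient by the radical
which does not have property (S).

(2) A Banach algebra `B` is the quotient of a Banach algebra with property (S) by a `k`-dimensional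
ideal if and only if `B` has property (S) up to `k` dimensions.

(3) A Banach algebra `B` is the quotient of a Banach algebra with property (S) by its radical, of
dimension `k`, if and only if `B` is semisimple and has property (S) up to `k` dimensions.

(4) Property (S) up to `0` dimensions is property (S).

(5) For every `k` there is a commutative separable Banach algebra `B` which is the quotient of a
Banach algebra with property (S) by its radical, of dimension `k`, but not the quotient of a Banach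
algebra with property (S) by an ideal of a smaller dimension. -/
theorem result :
    (∀ k : ℕ, 1 ≤ k → Counterexample k) ∧
    (∀ (B : Type) [NonUnitalNormedRing B] [NormedSpace ℂ B] [IsScalarTower ℂ B B]
      [SMulCommClass ℂ B B] [CompleteSpace B],
      (∀ k : ℕ, IsQuotientOfS B k ↔ PropertySUpTo B k) ∧
      (∀ k : ℕ, IsRadicalQuotientOfS B k ↔ radical B = ⊥ ∧ PropertySUpTo B k) ∧
      (PropertySUpTo B 0 ↔ PropertyS B)) ∧
    ∀ k : ℕ, ∃ (B : Type) (_ : NonUnitalNormedRing B) (_ : NormedSpace ℂ B)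
      (_ : IsScalarTower ℂ B B) (_ : SMulCommClass ℂ B B) (_ : CompleteSpace B),
      (∀ a b : B, a * b = b * a) ∧ TopologicalSpace.SeparableSpace B ∧
      IsRadicalQuotientOfS B k ∧ ∀ m < k, ¬ IsQuotientOfS B m := by
  refine ⟨ExactCriterion.result.2, fun B _ _ _ _ _ => ⟨isQuotientOfS_iff B,
    isRadicalQuotientOfS_iff B, ?_, ?_⟩, strict⟩
  · rintro ⟨φ, M, C, h1, h2⟩
    refine ⟨C, fun x hx => ?_⟩
    obtain ⟨n, a, b, hab, hc⟩ := h2 ⟨x, hx⟩
    refine ⟨n, a, b, hab, ?_⟩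
    have h3 : φ ⟨x, hx⟩ = 0 := Subsingleton.elim _ _
    rw [h3, norm_zero, add_zero] at hc
    exact hc
  · rintro ⟨C, hC⟩
    refine ⟨0, 0, C, fun a b => by simp, fun x => ?_⟩
    obtain ⟨n, a, b, hab, hc⟩ := hC x x.2
    exact ⟨n, a, b, hab, by rw [LinearMap.zero_apply, norm_zero, add_zero]; exact hc⟩

end Pool.Agent.Results.MP_a0c03c_an.WhichQuotients
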